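import Mathlib

set_option autoImplicit false

open Polynomial

namespace Pool.Agent.H31.Quot

/-- Index of an ideal containing a prime `p` and a polynomial not divisible by `p`. -/
lemma index_prime {p : ℕ} (hp : p.Prime) (J : Ideal ℤ[X]) (hJ : (C (p : ℤ)) ∈ J)
    (Φ : ℤ[X]) (hΦ : Φ ∈ J) (hprim : Φ.IsPrimitive) (d : ℕ) (hd : Φ.natDegree ≤ d) :
    J.toAddSubgroup.index ≠ 0 ∧ J.toAddSubgroup.index ≤ p ^ d := by
  have := Fact.mk hp
  set π : ℤ[X] →+* (ZMod p)[X] := mapRingHom (Int.castRingHom (ZMod p)) with hπ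
  have hsurj : Function.Surjective π := by
    rw [hπ]
    exact map_surjective _ (ZMod.ringHom_surjective _)
  have hne : π Φ ≠ 0 := by
    intro h0
    have h1 : (C (p : ℤ)) ∣ Φ := by
      rw [Polynomial.C_dvd_iff_dvd_coeff]
      intro i
      have h2 : (π Φ).coeff i = 0 := by rw [h0]; simp
      rw [hπ] at h2
      simp only [coe_mapRingHom, coeff_map, eq_intCast] at h2
      exact (ZMod.intCast_zmod_eq_zero_iff_dvd _ _).1 h2
    have h3 := hprim (p : ℤ) h1
    have h4 : p = 1 := by
      have := Int.isUnit_iff.1 h3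
      rcases this with h | h
      · exact_mod_cast h
      · omega
    exact hp.one_lt.ne' h4
  set S : Ideal (ZMod p)[X] := Ideal.span {π Φ} with hS
  have hle : (Ideal.comap π S) ≤ J := by
    intro h hh
    rw [Ideal.mem_comap, hS, Ideal.mem_span_singleton'] at hh
    obtain ⟨q, hq⟩ := hh
    obtain ⟨q', rfl⟩ := hsurj q
    have h5 : π (h - q' * Φ) = 0 := by simp [← hq]
    have h6 : (C (p : ℤ)) ∣ (h - q' * Φ) := by
      rw [Polynomial.C_dvd_iff_dvd_coeff]
      intro i
      have h2 : (π (h - q' * Φ)).coeff i = 0 := by rw [h5]; simp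
      rw [hπ] at h2
      simp only [coe_mapRingHom, coeff_map, eq_intCast] at h2
      exact (ZMod.intCast_zmod_eq_zero_iff_dvd _ _).1 h2
    obtain ⟨w, hw⟩ := h6
    have h7 : h = C (p : ℤ) * w + q' * Φ := by rw [← hw]; ring
    rw [h7]
    exact J.add_mem (J.mul_mem_right _ hJ) (J.mul_mem_left _ hΦ)
  have hidx : (Ideal.comap π S).toAddSubgroup.index = p ^ (π Φ).natDegree := by
    have e1 : (Ideal.comap π S).toAddSubgroup = S.toAddSubgroup.comap π.toAddMonoidHom := by
      ext x; simp
    rw [e1, AddSubgroup.index_comap_of_surjective _ (by exact hsurj)]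
    have e2 : S.toAddSubgroup.index = Nat.card ((ZMod p)[X] ⧸ S) := by
      rw [AddSubgroup.index]
      rfl
    rw [e2]
    have hfin : Module.Finite (ZMod p) ((ZMod p)[X] ⧸ S) :=
      (AdjoinRoot.powerBasis hne).finite
    rw [Module.natCard_eq_pow_finrank (K := ZMod p), finrank_quotient_span_eq_natDegree]
    simp
  have hdeg : (π Φ).natDegree ≤ d := le_trans (natDegree_map_le) hd
  have hdvd : J.toAddSubgroup.index ∣ (Ideal.comap π S).toAddSubgroup.index :=
    AddSubgroup.index_dvd_of_le hle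
  rw [hidx] at hdvd
  have hpos : 0 < p ^ (π Φ).natDegree := pow_pos hp.pos _
  refine ⟨?_, ?_⟩
  · intro h0
    rw [h0] at hdvd
    have := Nat.eq_zero_of_zero_dvd hdvd
    omega
  · exact le_trans (Nat.le_of_dvd hpos hdvd) (Nat.pow_le_pow_right hp.pos hdeg)

end Pool.Agent.H31.Quot
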