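import Pool.Agent.H31.QuotA

set_option autoImplicit false

open Polynomial

namespace Pool.Agent.H31.Quot

/-- exact sequence: index of `J` = index of `(J : a)` times index of `J + (a)`. -/
lemma index_colon (J : Ideal ℤ[X]) (a : ℤ[X]) :
    (Submodule.comap (LinearMap.mulLeft ℤ[X] a) J).toAddSubgroup.index *
      (J ⊔ Ideal.span {a}).toAddSubgroup.index = J.toAddSubgroup.index := by
  have hle : J.toAddSubgroup ≤ (J ⊔ Ideal.span {a}).toAddSubgroup := by
    intro x hx
    exact (le_sup_left : J ≤ J ⊔ Ideal.span {a}) hx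
  rw [← AddSubgroup.relIndex_mul_index hle]
  congr 1
  have e1 : (J ⊔ Ideal.span {a}).toAddSubgroup =
      J.toAddSubgroup ⊔ (⊤ : AddSubgroup ℤ[X]).map (AddMonoidHom.mulLeft a) := by
    ext x
    simp only [Submodule.mem_toAddSubgroup, AddSubgroup.mem_sup, Submodule.mem_sup,
      AddSubgroup.mem_map, AddSubgroup.mem_top, true_and, AddMonoidHom.coe_mulLeft,
      Ideal.mem_span_singleton', exists_exists_eq_and]
    constructor
    · rintro ⟨y, hy, q, rfl⟩
      exact ⟨y, hy, q, by ring⟩
    · rintro ⟨y, hy, q, rfl⟩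
      exact ⟨y, hy, q, by ring⟩
  rw [e1, AddSubgroup.relIndex_sup_left, ← AddSubgroup.relIndex_comap,
    AddSubgroup.relIndex_top_right]
  congr 1

/-- An ideal of `ℤ[X]` containing the integer `K ≥ 1` and a primitive polynomial of degree `≤ d`
has index at most `K ^ d`. -/
lemma index_le (d : ℕ) (Φ : ℤ[X]) (hprim : Φ.IsPrimitive) (hd : Φ.natDegree ≤ d) :
    ∀ (K : ℕ), 1 ≤ K → ∀ (J : Ideal ℤ[X]), (C (K : ℤ)) ∈ J → Φ ∈ J →
    J.toAddSubgroup.index ≠ 0 ∧ J.toAddSubgroup.index ≤ K ^ d := by
  intro K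
  induction K using Nat.strong_induction_on with
  | _ K ih =>
    intro hK J hKJ hΦ
    rcases Nat.eq_or_lt_of_le hK with h1 | h1
    · have hJ : J = ⊤ := by
        rw [Ideal.eq_top_iff_one]
        rw [← h1] at hKJ
        simpa using hKJ
      subst hJ
      have : (⊤ : Ideal ℤ[X]).toAddSubgroup = (⊤ : AddSubgroup ℤ[X]) := by
        ext; simp
      rw [this]
      simp [← h1]
    · obtain ⟨p, hp, K', rfl⟩ := Nat.exists_prime_and_dvd (n := K) (by omega)
      have hK'pos : 1 ≤ K' := by
        rcases Nat.eq_zero_or_pos K' with h | h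
        · simp [h] at h1
        · exact h
      have hlt : K' < p * K' := by
        have := hp.one_lt
        nlinarith
      have hJ1 := ih K' hlt hK'pos (Submodule.comap (LinearMap.mulLeft ℤ[X] (C (p : ℤ))) J)
        (by
          rw [Submodule.mem_comap, LinearMap.mulLeft_apply, ← C_mul]
          push_cast at hKJ
          exact_mod_cast hKJ)
        (by
          rw [Submodule.mem_comap, LinearMap.mulLeft_apply]
          exact J.mul_mem_left _ hΦ)
      have hJ2 := index_prime hp (J ⊔ Ideal.span {C (p : ℤ)})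
        ((le_sup_right : Ideal.span {C (p : ℤ)} ≤ J ⊔ Ideal.span {C (p : ℤ)})
          (Ideal.mem_span_singleton_self _)) Φ
        ((le_sup_left : J ≤ J ⊔ Ideal.span {C (p : ℤ)}) hΦ) hprim d hd
      rw [← index_colon J (C (p : ℤ))]
      refine ⟨mul_ne_zero hJ1.1 hJ2.1, ?_⟩
      calc _ ≤ K' ^ d * p ^ d := Nat.mul_le_mul hJ1.2 hJ2.2
        _ = (p * K') ^ d := by rw [mul_comm, mul_pow]

end Pool.Agent.H31.Quot
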