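import Pool.Agent.H31.QuotB

set_option autoImplicit false

open Polynomial

namespace Pool.Agent.H31.Quot

/-- The ideal of polynomials whose Hasse derivatives of order `< r` lie in `I`. -/
noncomputable def jet (I : Ideal ℤ[X]) (r : ℕ) : Ideal ℤ[X] where
  carrier := {h | ∀ j < r, hasseDeriv j h ∈ I}
  add_mem' := by
    intro a b ha hb j hj
    rw [map_add]
    exact I.add_mem (ha j hj) (hb j hj)
  zero_mem' := by
    intro j _
    rw [map_zero]
    exact I.zero_mem
  smul_mem' := by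
    intro c x hx j hj
    rw [smul_eq_mul, hasseDeriv_mul]
    refine I.sum_mem ?_
    intro p hp
    have := Finset.HasAntidiagonal.mem_antidiagonal.1 hp
    exact I.mul_mem_left _ (hx p.2 (by omega))

lemma mem_jet {I : Ideal ℤ[X]} {r : ℕ} {h : ℤ[X]} :
    h ∈ jet I r ↔ ∀ j < r, hasseDeriv j h ∈ I := Iff.rfl

lemma jet_zero (I : Ideal ℤ[X]) : (jet I 0).toAddSubgroup = ⊤ := by
  ext x
  simp [mem_jet]

lemma jet_succ (I : Ideal ℤ[X]) (r : ℕ) : (jet I (r + 1)).toAddSubgroup =
    I.toAddSubgroup.comap (hasseDeriv r : ℤ[X] →ₗ[ℤ] ℤ[X]).toAddMonoidHom ⊓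
      (jet I r).toAddSubgroup := by
  ext x
  simp only [Submodule.mem_toAddSubgroup, mem_jet, AddSubgroup.mem_inf, AddSubgroup.mem_comap,
    LinearMap.toAddMonoidHom_coe]
  constructor
  · intro h
    exact ⟨h r (by omega), fun j hj => h j (by omega)⟩
  · rintro ⟨h1, h2⟩ j hj
    rcases Nat.lt_succ_iff_lt_or_eq.1 hj with h | h
    · exact h2 j h
    · rw [h]; exact h1

lemma index_jet_succ (I : Ideal ℤ[X]) (r : ℕ) :
    (jet I (r + 1)).toAddSubgroup.index =
      I.toAddSubgroup.relIndex ((jet I r).toAddSubgroup.map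
        (hasseDeriv r : ℤ[X] →ₗ[ℤ] ℤ[X]).toAddMonoidHom) * (jet I r).toAddSubgroup.index := by
  have hle : (jet I (r + 1)).toAddSubgroup ≤ (jet I r).toAddSubgroup := by
    rw [jet_succ]; exact inf_le_right
  rw [← AddSubgroup.relIndex_mul_index hle, jet_succ, AddSubgroup.inf_relIndex_right,
    AddSubgroup.relIndex_comap]

lemma step {I : Ideal ℤ[X]} {f h : ℤ[X]} (hf : f ∈ I) {r : ℕ} (hh : h ∈ jet I r) :
    f * h ∈ jet I (r + 1) ∧
      hasseDeriv (r + 1) (f * h) - derivative f * hasseDeriv r h ∈ I := by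
  constructor
  · intro j hj
    rw [hasseDeriv_mul]
    refine I.sum_mem ?_
    intro p hp
    have hp' := Finset.HasAntidiagonal.mem_antidiagonal.1 hp
    rcases Nat.eq_zero_or_pos p.1 with h0 | h0
    · rw [h0, hasseDeriv_zero']
      exact I.mul_mem_right _ hf
    · exact I.mul_mem_left _ (hh p.2 (by omega))
  · rw [hasseDeriv_mul, Finset.Nat.sum_antidiagonal_succ]
    have h1 : (0, r) ∈ Finset.HasAntidiagonal.antidiagonal r := by simp
    rw [← Finset.add_sum_erase _ _ h1]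
    have h2 : hasseDeriv (0, r + 1).1 f * hasseDeriv (0, r + 1).2 h +
        (hasseDeriv ((0, r).1 + 1) f * hasseDeriv (0, r).2 h +
          ∑ x ∈ (Finset.HasAntidiagonal.antidiagonal r).erase (0, r),
            hasseDeriv (x.1 + 1) f * hasseDeriv x.2 h) -
        derivative f * hasseDeriv r h =
        f * hasseDeriv (r + 1) h +
          ∑ x ∈ (Finset.HasAntidiagonal.antidiagonal r).erase (0, r),
            hasseDeriv (x.1 + 1) f * hasseDeriv x.2 h := by
      simp only [hasseDeriv_zero', zero_add, hasseDeriv_one']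
      ring
    rw [h2]
    refine I.add_mem (I.mul_mem_right _ hf) (I.sum_mem ?_)
    intro p hp
    have hp1 := Finset.mem_erase.1 hp
    have hp' := Finset.HasAntidiagonal.mem_antidiagonal.1 hp1.2
    have hne : p.1 ≠ 0 := by
      intro h0
      apply hp1.1
      ext
      · exact h0
      · simp; omega
    exact I.mul_mem_left _ (hh p.2 (by omega))

lemma stepPow {I : Ideal ℤ[X]} {f : ℤ[X]} (hf : f ∈ I) (r : ℕ) (q : ℤ[X]) :
    f ^ r * q ∈ jet I r ∧ hasseDeriv r (f ^ r * q) - (derivative f) ^ r * q ∈ I := by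
  induction r with
  | zero => 
    constructor
    · intro j hj; omega
    · simp
  | succ r ih =>
    have h1 := step hf ih.1
    have e : f ^ (r + 1) * q = f * (f ^ r * q) := by ring
    rw [e]
    refine ⟨h1.1, ?_⟩
    have e2 : hasseDeriv (r + 1) (f * (f ^ r * q)) - derivative f ^ (r + 1) * q =
        (hasseDeriv (r + 1) (f * (f ^ r * q)) - derivative f * hasseDeriv r (f ^ r * q)) +
        derivative f * (hasseDeriv r (f ^ r * q) - derivative f ^ r * q) := by ring
    rw [e2]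
    exact I.add_mem h1.2 (I.mul_mem_left _ ih.2)

lemma X_pow_sub_one_mem {I : Ideal ℤ[X]} {M : ℕ} (hf : (X ^ M - 1 : ℤ[X]) ∈ I) (r : ℕ) :
    (X ^ (M * r) - 1 : ℤ[X]) ∈ I := by
  rw [pow_mul]
  have : ((X : ℤ[X]) ^ M - 1) ∣ ((X ^ M) ^ r - 1) := by
    simpa using sub_dvd_pow_sub_pow ((X : ℤ[X]) ^ M) 1 r
  exact I.mem_of_dvd this hf

lemma index_step {I : Ideal ℤ[X]} {M : ℕ} (hM : 1 ≤ M) (hf : (X ^ M - 1 : ℤ[X]) ∈ I) (r : ℕ) :
    I.toAddSubgroup.index * (jet I r).toAddSubgroup.index ≤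
      (M ^ r) ^ M * (jet I (r + 1)).toAddSubgroup.index := by
  set δ := (hasseDeriv r : ℤ[X] →ₗ[ℤ] ℤ[X]).toAddMonoidHom with hδ
  set L : AddSubgroup ℤ[X] := I.toAddSubgroup ⊔ (jet I r).toAddSubgroup.map δ with hL
  have h1 : I.toAddSubgroup.relIndex L * L.index = I.toAddSubgroup.index :=
    AddSubgroup.relIndex_mul_index le_sup_left
  have h2 : I.toAddSubgroup.relIndex L = I.toAddSubgroup.relIndex
      ((jet I r).toAddSubgroup.map δ) := by
    rw [hL, AddSubgroup.relIndex_sup_left]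
  have hP := index_le M (X ^ M - 1 : ℤ[X])
    (monic_X_pow_sub_C (1 : ℤ) (by omega)).isPrimitive
    (by
      have := natDegree_X_pow_sub_C (n := M) (r := (1 : ℤ))
      simpa using this.le)
    (M ^ r) (Nat.one_le_pow _ _ hM) (I ⊔ Ideal.span {C ((M ^ r : ℕ) : ℤ)})
    ((le_sup_right : Ideal.span {C ((M ^ r : ℕ) : ℤ)} ≤ _) (Ideal.mem_span_singleton_self _))
    ((le_sup_left : I ≤ _) hf)
  have hle : (I ⊔ Ideal.span {C ((M ^ r : ℕ) : ℤ)}).toAddSubgroup ≤ L := by
    intro x hx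
    rw [Submodule.mem_toAddSubgroup, Submodule.mem_sup] at hx
    obtain ⟨y, hy, z, hz, rfl⟩ := hx
    rw [Ideal.mem_span_singleton'] at hz
    obtain ⟨q, rfl⟩ := hz
    refine L.add_mem (AddSubgroup.mem_sup_left hy) ?_
    obtain ⟨s1, s2⟩ := stepPow hf r (X ^ r * q)
    have e3 : q * C ((M ^ r : ℕ) : ℤ) =
      (q * C ((M ^ r : ℕ) : ℤ) * (1 - X ^ (M * r)) -
        (hasseDeriv r ((X ^ M - 1) ^ r * (X ^ r * q)) -
          (derivative (X ^ M - 1 : ℤ[X])) ^ r * (X ^ r * q))) +
        hasseDeriv r ((X ^ M - 1) ^ r * (X ^ r * q)) := by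
      have e4 : (derivative (X ^ M - 1 : ℤ[X])) ^ r * (X ^ r * q) =
          q * C ((M ^ r : ℕ) : ℤ) * X ^ (M * r) := by
        rw [derivative_sub, derivative_X_pow, derivative_one, sub_zero, mul_pow, ← pow_mul]
        have e5 : (X : ℤ[X]) ^ (M * r) = X ^ ((M - 1) * r) * X ^ r := by
          rw [← pow_add]
          congr 1
          obtain ⟨m, rfl⟩ : ∃ m, M = m + 1 := ⟨M - 1, by omega⟩
          simp; ring
        rw [e5]
        push_cast
        simp only [map_pow, map_natCast]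
        ring
      rw [e4]
      ring
    rw [e3]
    refine L.add_mem (AddSubgroup.mem_sup_left ?_) (AddSubgroup.mem_sup_right ?_)
    · rw [Submodule.mem_toAddSubgroup]
      refine I.sub_mem (I.mul_mem_left _ ?_) s2
      have := I.neg_mem (X_pow_sub_one_mem hf r)
      simpa using this
    · exact ⟨_, s1, rfl⟩
  have h3 : L.index ∣ (I ⊔ Ideal.span {C ((M ^ r : ℕ) : ℤ)}).toAddSubgroup.index :=
    AddSubgroup.index_dvd_of_le hle
  have h4 : L.index ≤ (M ^ r) ^ M :=
    le_trans (Nat.le_of_dvd (Nat.pos_of_ne_zero hP.1) h3) hP.2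
  rw [index_jet_succ, ← h1, h2]
  calc _ = L.index * (I.toAddSubgroup.relIndex ((jet I r).toAddSubgroup.map δ) *
        (jet I r).toAddSubgroup.index) := by ring
    _ ≤ _ := Nat.mul_le_mul_right _ h4

lemma index_pow_le {I : Ideal ℤ[X]} {M : ℕ} (hM : 1 ≤ M) (hf : (X ^ M - 1 : ℤ[X]) ∈ I)
    (D : ℕ) : ∀ r ≤ D, I.toAddSubgroup.index ^ r ≤
      ((M ^ D) ^ M) ^ r * (jet I r).toAddSubgroup.index := by
  intro r
  induction r with
  | zero => 
    intro _
    rw [jet_zero]
    simp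
  | succ r ih =>
    intro hr
    have h1 := ih (by omega)
    have h2 := index_step hM hf r
    calc I.toAddSubgroup.index ^ (r + 1) = I.toAddSubgroup.index * I.toAddSubgroup.index ^ r := by
          ring
      _ ≤ I.toAddSubgroup.index * (((M ^ D) ^ M) ^ r * (jet I r).toAddSubgroup.index) :=
          Nat.mul_le_mul_left _ h1
      _ = ((M ^ D) ^ M) ^ r * (I.toAddSubgroup.index * (jet I r).toAddSubgroup.index) := by ring
      _ ≤ ((M ^ D) ^ M) ^ r * ((M ^ r) ^ M * (jet I (r + 1)).toAddSubgroup.index) :=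
          Nat.mul_le_mul_left _ h2
      _ ≤ ((M ^ D) ^ M) ^ r * ((M ^ D) ^ M * (jet I (r + 1)).toAddSubgroup.index) := by
          gcongr
          omega
      _ = _ := by ring

end Pool.Agent.H31.Quot
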