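import Pool.Agent.H31.QuotC

set_option autoImplicit false

open Polynomial

namespace Pool.Agent.H31.Quot

/-- Upper bound for the index of the jet ideal from an auxiliary polynomial. -/
lemma index_jet_le {I : Ideal ℤ[X]} {M K D κ d : ℕ} (hM : 1 ≤ M) (hK : 1 ≤ K) (hκ : 1 ≤ κ)
    (hf : (X ^ M - 1 : ℤ[X]) ∈ I) (hKI : (C (K : ℤ)) ∈ I) (Φ : ℤ[X]) (hΦ : Φ.IsPrimitive)
    (hd : Φ.natDegree ≤ d) (hmem : C (κ : ℤ) * Φ ∈ jet I D) :
    (jet I D).toAddSubgroup.index ≠ 0 ∧
      (jet I D).toAddSubgroup.index ≤ κ ^ (M * D) * K ^ d := by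
  rw [← index_colon (jet I D) Φ]
  have hmonic : ((X ^ M - 1 : ℤ[X]) ^ D).Monic := (monic_X_pow_sub_C (1 : ℤ) (by omega)).pow D
  have h1 := index_le (M * D) ((X ^ M - 1 : ℤ[X]) ^ D) hmonic.isPrimitive
    (by
      have h0 := natDegree_X_pow_sub_C (n := M) (r := (1 : ℤ))
      rw [map_one] at h0
      rw [natDegree_pow, h0, mul_comm]) κ hκ
    (Submodule.comap (LinearMap.mulLeft ℤ[X] Φ) (jet I D))
    (by
      rw [Submodule.mem_comap, LinearMap.mulLeft_apply, mul_comm]
      exact hmem)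
    (by
      rw [Submodule.mem_comap, LinearMap.mulLeft_apply, mul_comm]
      exact (stepPow hf D Φ).1)
  have hKmem : (C (K : ℤ)) ∈ jet I D := by
    intro j _
    rcases Nat.eq_zero_or_pos j with h0 | h0
    · rw [h0, hasseDeriv_zero']
      exact hKI
    · rw [hasseDeriv_C j _ h0]
      exact I.zero_mem
  have h2 := index_le d Φ hΦ hd K hK (jet I D ⊔ Ideal.span {Φ})
    ((le_sup_left : jet I D ≤ _) hKmem)
    ((le_sup_right : Ideal.span {Φ} ≤ _) (Ideal.mem_span_singleton_self _))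
  exact ⟨mul_ne_zero h1.1 h2.1, Nat.mul_le_mul h1.2 h2.2⟩

/-- Key divisibility: a combination of powers `(X+1)^{n_t}` with low coefficients divisible by
`m` has coefficients divisible by `m` up to a Vandermonde-type factor. -/
lemma dvd_lemma {τ : Type} [Fintype τ] [DecidableEq τ] (ν : τ → ℕ) (c : τ → ℤ) (m : ℤ) (R : ℕ)
    (h : ∀ r < R, m ∣ ∑ t, c t * ((ν t).choose r : ℤ)) :
    ∀ (S : Finset τ) (r : ℕ), r + S.card < R →
      m ∣ ∑ t, c t * (∏ s ∈ S, ((ν t : ℤ) - ν s)) * ((ν t).choose r : ℤ) := by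
  intro S
  induction S using Finset.induction_on with
  | empty =>
    intro r hr
    simpa using h r (by simpa using hr)
  | insert a S ha ih =>
    intro r hr
    rw [Finset.card_insert_of_notMem ha] at hr
    have h1 := ih (r + 1) (by omega)
    have h2 := ih r (by omega)
    have e : ∑ t, c t * (∏ s ∈ insert a S, ((ν t : ℤ) - ν s)) * ((ν t).choose r : ℤ) =
        (r + 1 : ℤ) * ∑ t, c t * (∏ s ∈ S, ((ν t : ℤ) - ν s)) * ((ν t).choose (r + 1) : ℤ) +
        (r - ν a : ℤ) * ∑ t, c t * (∏ s ∈ S, ((ν t : ℤ) - ν s)) * ((ν t).choose r : ℤ) := by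
      rw [Finset.mul_sum, Finset.mul_sum, ← Finset.sum_add_distrib]
      refine Finset.sum_congr rfl ?_
      intro t _
      rw [Finset.prod_insert ha]
      have h3 : ((ν t : ℤ) - r) * ((ν t).choose r : ℤ) =
          (r + 1 : ℤ) * ((ν t).choose (r + 1) : ℤ) := by
        rcases le_or_gt r (ν t) with hle | hlt
        · have := Nat.choose_succ_right_eq (ν t) r
          have h4 : (((ν t).choose (r + 1) : ℕ) : ℤ) * ((r + 1 : ℕ) : ℤ) =
              ((ν t).choose r : ℤ) * ((ν t - r : ℕ) : ℤ) := by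
            exact_mod_cast this
          rw [Nat.cast_sub hle] at h4
          push_cast at h4
          linarith
        · rw [Nat.choose_eq_zero_of_lt hlt, Nat.choose_eq_zero_of_lt (by omega)]
          simp
      linear_combination (c t * ∏ s ∈ S, ((ν t : ℤ) - ν s)) * h3
    rw [e]
    exact dvd_add (Dvd.dvd.mul_left h1 _) (Dvd.dvd.mul_left h2 _)

lemma dvd_lemma2 {τ : Type} [Fintype τ] [DecidableEq τ] (ν : τ → ℕ) (c : τ → ℤ) (m : ℤ) 
    (h : ∀ r < Fintype.card τ, m ∣ ∑ t, c t * ((ν t).choose r : ℤ)) (t : τ) :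
    m ∣ c t * ∏ s ∈ Finset.univ.erase t, ((ν t : ℤ) - ν s) := by
  have hcard : (Finset.univ.erase t).card < Fintype.card τ := by
    rw [Finset.card_erase_of_mem (Finset.mem_univ t), Finset.card_univ]
    have : 0 < Fintype.card τ := Fintype.card_pos_iff.2 ⟨t⟩
    omega
  have h1 := dvd_lemma ν c m _ h (Finset.univ.erase t) 0 (by omega)
  rw [Finset.sum_eq_single t] at h1
  · simpa using h1
  · intro s _ hs
    have : ∏ u ∈ Finset.univ.erase t, ((ν s : ℤ) - ν u) = 0 := by
      apply Finset.prod_eq_zero (i := s)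
      · simp [hs]
      · simp
    rw [this]; simp
  · intro h; exact absurd (Finset.mem_univ t) h

end Pool.Agent.H31.Quot
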