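import Pool.Agent.H31.QuotD

set_option autoImplicit false

open Polynomial

namespace Pool.Agent.H31.Quot

variable {τ : Type} [Fintype τ] [DecidableEq τ]

noncomputable def low (ν : τ → ℕ) (c : τ → ℤ) : ℤ[X] := ∑ t, C (c t) * (X + 1) ^ (ν t)

lemma coeff_low (ν : τ → ℕ) (c : τ → ℤ) (r : ℕ) :
    (low ν c).coeff r = ∑ t, c t * ((ν t).choose r : ℤ) := by
  rw [low, finsetSum_coeff]
  refine Finset.sum_congr rfl ?_
  intro t _
  rw [coeff_C_mul, coeff_X_add_one_pow]

noncomputable def Psi (M B : ℕ) (ν : τ → ℕ) (c : ℕ → τ → ℤ) : ℤ[X] :=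
  ∑ k ∈ Finset.range B, X ^ (k * M) * low ν (c k)

def VV (ν : τ → ℕ) : ℤ := ∏ t, ∏ s ∈ Finset.univ.erase t, ((ν t : ℤ) - ν s)

lemma dvd_coeffs (M B : ℕ) (ν : τ → ℕ) (c : ℕ → τ → ℤ) (m : ℤ) (hcard : Fintype.card τ ≤ M)
    (h : ∀ j, m ∣ (Psi M B ν c).coeff j) :
    ∀ k < B, ∀ t, m ∣ VV ν ^ (k + 1) * c k t := by
  intro k
  induction k using Nat.strong_induction_on with
  | _ k ih =>
    intro hk
    have h1 : ∀ r < Fintype.card τ, m ∣ ∑ t, (VV ν ^ k * c k t) * ((ν t).choose r : ℤ) := by
      intro r hr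
      have h2 := (h (k * M + r)).mul_left (VV ν ^ k)
      rw [Psi, finsetSum_coeff, Finset.mul_sum,
        ← Finset.add_sum_erase _ _ (Finset.mem_range.2 hk)] at h2
      have h3 : m ∣ ∑ x ∈ (Finset.range B).erase k,
          VV ν ^ k * (X ^ (x * M) * low ν (c x)).coeff (k * M + r) := by
        apply Finset.dvd_sum
        intro x hx
        rw [coeff_X_pow_mul']
        split_ifs with hle
        · have hxk : x < k := by
            by_contra hcon
            have hne : x ≠ k := (Finset.mem_erase.1 hx).1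
            have : k + 1 ≤ x := by omega
            have h5 : (k + 1) * M ≤ x * M := Nat.mul_le_mul_right _ this
            have h6 : (k + 1) * M = k * M + M := by ring
            omega
          rw [coeff_low, Finset.mul_sum]
          apply Finset.dvd_sum
          intro t _
          have h7 := ih x hxk (by omega) t
          have h8 : VV ν ^ k * (c x t * ((ν t).choose (k * M + r - x * M) : ℤ)) =
              (VV ν ^ (x + 1) * c x t) * (VV ν ^ (k - (x + 1)) *
                ((ν t).choose (k * M + r - x * M) : ℤ)) := by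
            have : VV ν ^ k = VV ν ^ (x + 1) * VV ν ^ (k - (x + 1)) := by
              rw [← pow_add]; congr 1; omega
            rw [this]; ring
          rw [h8]
          exact h7.mul_right _
        · simp
      have h4 := (dvd_add_left h3).1 h2
      rw [coeff_X_pow_mul', if_pos (by omega), Nat.add_sub_cancel_left, coeff_low,
        Finset.mul_sum] at h4
      simpa only [mul_assoc] using h4
    intro t
    have h2 := dvd_lemma2 ν (fun t => VV ν ^ k * c k t) m h1 t
    have h3 : (∏ s ∈ Finset.univ.erase t, ((ν t : ℤ) - ν s)) ∣ VV ν :=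
      Finset.dvd_prod_of_mem _ (Finset.mem_univ t)
    obtain ⟨w, hw⟩ := h3
    have h4 : VV ν ^ (k + 1) * c k t =
        ((VV ν ^ k * c k t) * ∏ s ∈ Finset.univ.erase t, ((ν t : ℤ) - ν s)) * w := by
      rw [pow_succ]
      nth_rewrite 2 [hw]
      ring
    rw [h4]
    exact h2.mul_right _

lemma VV_ne_zero (ν : τ → ℕ) (hν : Function.Injective ν) : VV ν ≠ 0 := by
  rw [VV]
  refine Finset.prod_ne_zero_iff.2 (fun t _ => Finset.prod_ne_zero_iff.2 (fun s hs => ?_))
  have hne : s ≠ t := (Finset.mem_erase.1 hs).1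
  intro h0
  apply hne
  apply hν
  have : (ν t : ℤ) = ν s := by linarith
  exact_mod_cast this.symm

lemma VV_le (ν : τ → ℕ) (Y : ℕ) (hY : 1 ≤ Y) (hν : ∀ t, ν t < Y) :
    (VV ν).natAbs ≤ Y ^ (Fintype.card τ * Fintype.card τ) := by
  have hmap : ∀ (S : Finset τ) (F : τ → ℤ), (∏ s ∈ S, F s).natAbs = ∏ s ∈ S, (F s).natAbs :=
    fun S F => map_prod Int.natAbsHom F S
  rw [VV, hmap]
  calc _ ≤ ∏ t : τ, Y ^ (Fintype.card τ) := by
        refine Finset.prod_le_prod' ?_
        intro t _
        rw [hmap]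
        calc _ ≤ ∏ s ∈ Finset.univ.erase t, Y := by
              refine Finset.prod_le_prod' ?_
              intro s _
              have h1 := hν t
              have h2 := hν s
              omega
          _ = Y ^ (Finset.univ.erase t).card := by rw [Finset.prod_const]
          _ ≤ Y ^ (Fintype.card τ) := by
              refine Nat.pow_le_pow_right hY ?_
              exact Finset.card_le_univ _
    _ = _ := by rw [Finset.prod_const, Finset.card_univ, ← pow_mul]

/-- The auxiliary polynomial is nonzero and its content is bounded, for a primitive vector. -/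
lemma exists_prim (M B : ℕ) (ν : τ → ℕ) (hν : Function.Injective ν) (c : ℕ → τ → ℤ)
    (hcard : Fintype.card τ ≤ M) (hprim : ∀ m : ℤ, (∀ k < B, ∀ t, m ∣ c k t) → IsUnit m)
    (Y : ℕ) (hY : 1 ≤ Y) (hνY : ∀ t, ν t < Y) :
    ∃ (κ : ℕ) (Φ : ℤ[X]), 1 ≤ κ ∧ κ ≤ Y ^ (Fintype.card τ * Fintype.card τ * B) ∧
      Φ.IsPrimitive ∧ Psi M B ν c = C (κ : ℤ) * Φ ∧ Φ.natDegree = (Psi M B ν c).natDegree := by
  have key : ∀ m : ℤ, (∀ j, m ∣ (Psi M B ν c).coeff j) → m ∣ VV ν ^ B := by
    intro m hm
    have h1 := dvd_coeffs M B ν c m hcard hm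
    have h2 : ∀ k < B, ∀ t, m ∣ VV ν ^ B * c k t := by
      intro k hk t
      have h3 : VV ν ^ B * c k t = VV ν ^ (B - (k + 1)) * (VV ν ^ (k + 1) * c k t) := by
        have : VV ν ^ B = VV ν ^ (B - (k + 1)) * VV ν ^ (k + 1) := by
          rw [← pow_add]; congr 1; omega
        rw [this]; ring
      rw [h3]
      exact (h1 k hk t).mul_left _
    -- gcd argument
    set g : ℤ := (Finset.range B ×ˢ (Finset.univ : Finset τ)).gcd (fun p => c p.1 p.2) with hg
    have hgu : IsUnit g := by
      apply hprim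
      intro k hk t
      exact Finset.gcd_dvd (f := fun p : ℕ × τ => c p.1 p.2) (b := (k, t)) (by simp [hk])
    have h4 : m ∣ (Finset.range B ×ˢ (Finset.univ : Finset τ)).gcd
        (fun p => VV ν ^ B * c p.1 p.2) := by
      apply Finset.dvd_gcd
      intro p hp
      have := Finset.mem_product.1 hp
      exact h2 p.1 (Finset.mem_range.1 this.1) p.2
    rw [Finset.gcd_mul_left] at h4
    have h5 : m ∣ normalize (VV ν ^ B) := by
      have : IsUnit ((Finset.range B ×ˢ (Finset.univ : Finset τ)).gcd (fun p => c p.1 p.2)) := hgu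
      exact (this.dvd_mul_right).1 h4
    exact (dvd_normalize_iff).1 h5
  have hΨ : Psi M B ν c ≠ 0 := by
    intro h0
    have h1 := key 0 (by intro j; rw [h0]; simp)
    have h2 := zero_dvd_iff.1 h1
    exact pow_ne_zero B (VV_ne_zero ν hν) h2
  set P := Psi M B ν c with hP
  have hc0 : 0 < P.content := by
    have h1 : P.content ≠ 0 := by
      rw [Ne, content_eq_zero_iff]; exact hΨ
    have h2 : 0 ≤ P.content := Int.nonneg_of_normalize_eq_self normalize_content
    omega
  refine ⟨P.content.natAbs, P.primPart, by omega, ?_, P.isPrimitive_primPart, ?_,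
    P.natDegree_primPart⟩
  · have h1 : P.content ∣ VV ν ^ B := key _ (fun j => content_dvd_coeff j)
    have h2 : P.content.natAbs ∣ (VV ν).natAbs ^ B := by
      rw [← Int.natAbs_pow]
      exact Int.natAbs_dvd_natAbs.2 h1
    have h3 : 0 < (VV ν).natAbs ^ B :=
      pow_pos (Int.natAbs_pos.2 (VV_ne_zero ν hν)) _
    calc _ ≤ (VV ν).natAbs ^ B := Nat.le_of_dvd h3 h2
      _ ≤ (Y ^ (Fintype.card τ * Fintype.card τ)) ^ B := Nat.pow_le_pow_left (VV_le ν Y hY hνY) _
      _ = _ := by rw [← pow_mul]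
  · have h1 : ((P.content.natAbs : ℕ) : ℤ) = P.content := by omega
    rw [h1]
    exact P.eq_C_content_mul_primPart

end Pool.Agent.H31.Quot
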