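import Pool.Agent.H31.QuotE

set_option autoImplicit false

open Polynomial

namespace Pool.Agent.H31.Quot

lemma hasse_X_pow (k n : ℕ) : hasseDeriv k (X ^ n : ℤ[X]) = C ((n.choose k : ℕ) : ℤ) * X ^ (n - k) := by
  rw [← monomial_one_right_eq_X_pow, hasseDeriv_monomial, C_mul_X_pow_eq_monomial]
  simp

lemma hasse_X_add_one_pow (k n : ℕ) :
    hasseDeriv k ((X + 1) ^ n : ℤ[X]) = C ((n.choose k : ℕ) : ℤ) * (X + 1) ^ (n - k) := by
  ext m
  rw [hasseDeriv_coeff, coeff_X_add_one_pow, coeff_C_mul, coeff_X_add_one_pow]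
  rcases le_or_gt (m + k) n with h | h
  · have h1 := Nat.choose_mul (n := n) (k := m + k) (s := k) (by omega)
    have h2 : m + k - k = m := by omega
    rw [h2] at h1
    rw [mul_comm]
    exact_mod_cast h1
  · rw [Nat.choose_eq_zero_of_lt h]
    rcases le_or_gt k n with h3 | h3
    · have : (n - k).choose m = 0 := Nat.choose_eq_zero_of_lt (by omega)
      rw [this]; simp
    · have : n.choose k = 0 := Nat.choose_eq_zero_of_lt h3
      rw [this]; simp

noncomputable def qq (a b i r : ℕ) : ℤ[X] :=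
  ∑ p ∈ Finset.HasAntidiagonal.antidiagonal r,
    C ((a.choose p.1 * b.choose p.2 : ℕ) : ℤ) * (X ^ (r - p.1) * (X + 1) ^ (i + r - p.2))

lemma qq_spec (a i e r : ℕ) :
    X ^ r * (X + 1) ^ r * hasseDeriv r (X ^ a * (X + 1) ^ (i + e) : ℤ[X]) =
      X ^ a * (X + 1) ^ e * qq a (i + e) i r := by
  rw [hasseDeriv_mul, qq, Finset.mul_sum, Finset.mul_sum]
  refine Finset.sum_congr rfl ?_
  intro p hp
  have hp' := Finset.HasAntidiagonal.mem_antidiagonal.1 hp
  rw [hasse_X_pow, hasse_X_add_one_pow]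
  rcases le_or_gt p.1 a with h1 | h1
  · rcases le_or_gt p.2 (i + e) with h2 | h2
    · have e1 : (X : ℤ[X]) ^ r * X ^ (a - p.1) = X ^ a * X ^ (r - p.1) := by
        rw [← pow_add, ← pow_add]; congr 1; omega
      have e2 : (X + 1 : ℤ[X]) ^ r * (X + 1) ^ (i + e - p.2) =
          (X + 1) ^ e * (X + 1) ^ (i + r - p.2) := by
        rw [← pow_add, ← pow_add]; congr 1; omega
      calc _ = C ((a.choose p.1 : ℕ) : ℤ) * C (((i + e).choose p.2 : ℕ) : ℤ) *
            ((X ^ r * X ^ (a - p.1)) * ((X + 1) ^ r * (X + 1) ^ (i + e - p.2))) := by ring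
        _ = _ := by
          rw [e1, e2]; push_cast; simp only [map_mul]; ring
    · rw [Nat.choose_eq_zero_of_lt h2]; simp
  · rw [Nat.choose_eq_zero_of_lt h1]; simp

lemma qq_coeff (a b i r s : ℕ) (hs : i + r < s) : (qq a b i r).coeff s = 0 := by
  rw [qq, finsetSum_coeff]
  refine Finset.sum_eq_zero ?_
  intro p hp
  have hp' := Finset.HasAntidiagonal.mem_antidiagonal.1 hp
  rw [coeff_C_mul]
  have : (X ^ (r - p.1) * (X + 1) ^ (i + r - p.2) : ℤ[X]).coeff s = 0 := by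
    apply coeff_eq_zero_of_natDegree_lt
    have h1 : (X ^ (r - p.1) * (X + 1) ^ (i + r - p.2) : ℤ[X]).natDegree ≤
        (r - p.1) + (i + r - p.2) := by
      refine le_trans natDegree_mul_le ?_
      have h2 : ((X + 1 : ℤ[X]) ^ (i + r - p.2)).natDegree ≤ i + r - p.2 := by
        have := natDegree_pow_le (p := (X + 1 : ℤ[X])) (n := i + r - p.2)
        have h3 : (X + 1 : ℤ[X]).natDegree = 1 := by
          have := natDegree_X_add_C (1 : ℤ)
          simpa using this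
        rw [h3] at this
        omega
      have h4 : ((X : ℤ[X]) ^ (r - p.1)).natDegree = r - p.1 := natDegree_X_pow _
      omega
    omega
  rw [this, mul_zero]

lemma unit_cancel {I : Ideal ℤ[X]} {M : ℕ} (hM : 1 ≤ M) (hf : (X ^ M - 1 : ℤ[X]) ∈ I)
    (hg : ((X + 1) ^ M - 1 : ℤ[X]) ∈ I) (r : ℕ) (h : ℤ[X])
    (hh : X ^ r * (X + 1) ^ r * h ∈ I) : h ∈ I := by
  have h1 : (X ^ (M * r) - 1 : ℤ[X]) ∈ I := X_pow_sub_one_mem hf r
  have h2 : ((X + 1) ^ (M * r) - 1 : ℤ[X]) ∈ I := by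
    rw [pow_mul]
    have : ((X + 1 : ℤ[X]) ^ M - 1) ∣ (((X + 1) ^ M) ^ r - 1) := by
      simpa using sub_dvd_pow_sub_pow ((X + 1 : ℤ[X]) ^ M) 1 r
    exact I.mem_of_dvd this hg
  have e : h = X ^ (M * r - r) * (X + 1) ^ (M * r - r) * (X ^ r * (X + 1) ^ r * h) -
      (X ^ (M * r) - 1) * ((X + 1) ^ (M * r) * h) - ((X + 1) ^ (M * r) - 1) * h := by
    have hle : r ≤ M * r := Nat.le_mul_of_pos_left _ (by omega)
    have e1 : (X : ℤ[X]) ^ (M * r) = X ^ (M * r - r) * X ^ r := by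
      rw [← pow_add]; congr 1; omega
    have e2 : (X + 1 : ℤ[X]) ^ (M * r) = (X + 1) ^ (M * r - r) * (X + 1) ^ r := by
      rw [← pow_add]; congr 1; omega
    rw [e1, e2]; ring
  rw [e]
  exact I.sub_mem (I.sub_mem (I.mul_mem_left _ hh) (I.mul_mem_right _ h1)) (I.mul_mem_right _ h2)

lemma one_mem {I : Ideal ℤ[X]} {M : ℕ} (hf : (X ^ M - 1 : ℤ[X]) ∈ I)
    (hg : ((X + 1) ^ M - 1 : ℤ[X]) ∈ I) (k l : ℕ) :
    (X ^ (k * M) * (X + 1) ^ (l * M) - 1 : ℤ[X]) ∈ I := by
  have h1 : (X ^ (k * M) - 1 : ℤ[X]) ∈ I := by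
    rw [mul_comm]; exact X_pow_sub_one_mem hf k
  have h2 : ((X + 1) ^ (l * M) - 1 : ℤ[X]) ∈ I := by
    rw [mul_comm, pow_mul]
    have : ((X + 1 : ℤ[X]) ^ M - 1) ∣ (((X + 1) ^ M) ^ l - 1) := by
      simpa using sub_dvd_pow_sub_pow ((X + 1 : ℤ[X]) ^ M) 1 l
    exact I.mem_of_dvd this hg
  have e : (X ^ (k * M) * (X + 1) ^ (l * M) - 1 : ℤ[X]) =
      (X ^ (k * M) - 1) * (X + 1) ^ (l * M) + ((X + 1) ^ (l * M) - 1) := by ring
  rw [e]
  exact I.add_mem (I.mul_mem_right _ h1) h2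

/-- exponents -/
def nu (n M : ℕ) (t : Fin (n ^ 2) × Fin (2 * n)) : ℕ := t.1 + t.2 * M

lemma nu_inj (n M : ℕ) (hM : n ^ 2 ≤ M) : Function.Injective (nu n M) := by
  rintro ⟨i, l⟩ ⟨i', l'⟩ h
  simp only [nu] at h
  have hi := i.2
  have hi' := i'.2
  have hl : (l : ℕ) = l' := by
    rcases lt_trichotomy (l : ℕ) l' with h1 | h1 | h1
    · have : (l + 1 : ℕ) * M ≤ l' * M := Nat.mul_le_mul_right _ h1
      have e : (l + 1 : ℕ) * M = l * M + M := by ring
      omega
    · exact h1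
    · have : (l' + 1 : ℕ) * M ≤ l * M := Nat.mul_le_mul_right _ h1
      have e : (l' + 1 : ℕ) * M = l' * M + M := by ring
      omega
  have hi2 : (i : ℕ) = i' := by rw [hl] at h; omega
  exact Prod.ext (Fin.ext hi2) (Fin.ext hl)

lemma nu_lt (n M : ℕ) (hM : n ^ 2 ≤ M) (t : Fin (n ^ 2) × Fin (2 * n)) : nu n M t < 2 * n * M := by
  have h1 := t.1.2
  have h2 := t.2.2
  have h3 : ((t.2 : ℕ) + 1) * M ≤ 2 * n * M := Nat.mul_le_mul_right _ h2
  have e : ((t.2 : ℕ) + 1) * M = t.2 * M + M := by ring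
  simp only [nu]
  omega

/-- Existence of a primitive solution of the linear system. -/
lemma exists_sol (n M : ℕ) (hn : 1 ≤ n) :
    ∃ c : ℕ → (Fin (n ^ 2) × Fin (2 * n)) → ℤ,
      (∀ m : ℤ, (∀ k < 2 * n, ∀ t, m ∣ c k t) → IsUnit m) ∧
      ∀ r < n ^ 2, ∑ k ∈ Finset.range (2 * n), ∑ t : Fin (n ^ 2) × Fin (2 * n),
        C (c k t) * qq (k * M) (nu n M t) t.1 r = 0 := by
  set α := Fin (n ^ 2) × Fin (2 * n ^ 2) with hα
  set β := Fin (2 * n) × (Fin (n ^ 2) × Fin (2 * n)) with hβ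
  let E : Matrix α β ℤ := fun x y => (qq (y.1 * M) (nu n M y.2) y.2.1 x.1).coeff x.2
  have hn2 : 0 < n ^ 2 := by positivity
  have hcard : Fintype.card α < Fintype.card β := by
    simp only [hα, hβ, Fintype.card_prod, Fintype.card_fin]
    nlinarith
  have hcard2 : 0 < Fintype.card α := by
    simp only [hα, Fintype.card_prod, Fintype.card_fin]
    positivity
  obtain ⟨w, hw0, hw, -⟩ := Int.Matrix.exists_ne_zero_int_vec_norm_le E hcard hcard2
  have hne : (Finset.univ : Finset β).Nonempty := by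
    rw [Finset.univ_nonempty_iff, ← Fintype.card_pos_iff]; omega
  obtain ⟨g, hg1, hg2⟩ := Finset.extract_gcd w hne
  set γ := Finset.univ.gcd w with hγ
  have hγ0 : γ ≠ 0 := by
    intro h0
    apply hw0
    funext b
    rw [hg1 b (Finset.mem_univ b), h0, zero_mul]
    rfl
  have hEg : ∀ x, ∑ y, E x y * g y = 0 := by
    intro x
    have h1 : ∑ y, E x y * w y = 0 := by
      have := congrFun hw x
      simpa [Matrix.mulVec, dotProduct] using this
    have h2 : γ * ∑ y, E x y * g y = 0 := by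
      rw [← h1, Finset.mul_sum]
      refine Finset.sum_congr rfl ?_
      intro y _
      rw [hg1 y (Finset.mem_univ y)]; ring
    exact (mul_eq_zero.1 h2).resolve_left hγ0
  refine ⟨fun k t => if h : k < 2 * n then g (⟨k, h⟩, t) else 0, ?_, ?_⟩
  · intro m hm
    have h1 : m ∣ Finset.univ.gcd g := by
      apply Finset.dvd_gcd
      intro b _
      have := hm b.1 b.1.2 b.2
      simpa using this
    rw [hg2] at h1
    exact isUnit_of_dvd_one h1
  · intro r hr
    ext s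
    rw [coeff_zero, finsetSum_coeff]
    rcases lt_or_ge s (2 * n ^ 2) with hs | hs
    · have h1 := hEg (⟨r, hr⟩, ⟨s, hs⟩)
      rw [Fintype.sum_prod_type] at h1
      rw [Finset.sum_range, ← h1]
      refine Finset.sum_congr rfl ?_
      intro k _
      rw [finsetSum_coeff]
      refine Finset.sum_congr rfl ?_
      intro t _
      rw [coeff_C_mul]
      simp only [k.2, dite_true, Fin.eta, E]
      ring
    · refine Finset.sum_eq_zero ?_
      intro k _
      rw [finsetSum_coeff]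
      refine Finset.sum_eq_zero ?_
      intro t _
      rw [coeff_C_mul, qq_coeff, mul_zero]
      have := t.1.2
      omega

end Pool.Agent.H31.Quot
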