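import Pool.Agent.H31.QuotF

set_option autoImplicit false

open Polynomial

namespace Pool.Agent.H31.Quot

lemma hasse_C_mul (r : ℕ) (a : ℤ) (h : ℤ[X]) :
    hasseDeriv r (C a * h) = C a * hasseDeriv r h := by
  rw [← smul_eq_C_mul, ← smul_eq_C_mul, map_smul]

lemma psi_mem_jet {I : Ideal ℤ[X]} {M n : ℕ} (hM : 1 ≤ M) (hf : (X ^ M - 1 : ℤ[X]) ∈ I)
    (hg : ((X + 1) ^ M - 1 : ℤ[X]) ∈ I)
    (c : ℕ → (Fin (n ^ 2) × Fin (2 * n)) → ℤ)
    (hc : ∀ r < n ^ 2, ∑ k ∈ Finset.range (2 * n), ∑ t : Fin (n ^ 2) × Fin (2 * n),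
        C (c k t) * qq (k * M) (nu n M t) t.1 r = 0) :
    Psi M (2 * n) (nu n M) c ∈ jet I (n ^ 2) := by
  intro r hr
  apply unit_cancel hM hf hg r
  have e1 : X ^ r * (X + 1) ^ r * hasseDeriv r (Psi M (2 * n) (nu n M) c) =
      ∑ k ∈ Finset.range (2 * n), ∑ t : Fin (n ^ 2) × Fin (2 * n),
        (X ^ (k * M) * (X + 1) ^ ((t.2 : ℕ) * M) - 1) *
          (C (c k t) * qq (k * M) (nu n M t) t.1 r) := by
    have e2 : X ^ r * (X + 1) ^ r * hasseDeriv r (Psi M (2 * n) (nu n M) c) =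
      ∑ k ∈ Finset.range (2 * n), ∑ t : Fin (n ^ 2) × Fin (2 * n),
        (X ^ (k * M) * (X + 1) ^ ((t.2 : ℕ) * M)) *
          (C (c k t) * qq (k * M) (nu n M t) t.1 r) := by
      rw [Psi, map_sum, Finset.mul_sum]
      refine Finset.sum_congr rfl ?_
      intro k _
      rw [low, Finset.mul_sum, map_sum, Finset.mul_sum]
      refine Finset.sum_congr rfl ?_
      intro t _
      have e3 : (X : ℤ[X]) ^ (k * M) * (C (c k t) * (X + 1) ^ nu n M t) =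
          C (c k t) * (X ^ (k * M) * (X + 1) ^ ((t.1 : ℕ) + (t.2 : ℕ) * M)) := by
        rw [nu]; ring
      rw [e3, hasse_C_mul]
      have e4 := qq_spec (k * M) (t.1 : ℕ) ((t.2 : ℕ) * M) r
      calc _ = C (c k t) * (X ^ r * (X + 1) ^ r * hasseDeriv r
            (X ^ (k * M) * (X + 1) ^ ((t.1 : ℕ) + (t.2 : ℕ) * M) : ℤ[X])) := by ring
        _ = _ := by rw [e4, nu]; ring
    rw [e2]
    have e5 := hc r hr
    rw [← sub_zero (∑ k ∈ Finset.range (2 * n), ∑ t : Fin (n ^ 2) × Fin (2 * n),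
        (X ^ (k * M) * (X + 1) ^ ((t.2 : ℕ) * M)) *
          (C (c k t) * qq (k * M) (nu n M t) t.1 r)), ← e5, ← Finset.sum_sub_distrib]
    refine Finset.sum_congr rfl ?_
    intro k _
    rw [← Finset.sum_sub_distrib]
    refine Finset.sum_congr rfl ?_
    intro t _
    ring
  rw [e1]
  refine I.sum_mem fun k _ => I.sum_mem fun t _ => I.mul_mem_right _ (one_mem hf hg k _)

lemma natDegree_psi {M n : ℕ} (hM : n ^ 2 ≤ M)
    (c : ℕ → (Fin (n ^ 2) × Fin (2 * n)) → ℤ) :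
    (Psi M (2 * n) (nu n M) c).natDegree ≤ 4 * n * M := by
  rw [Psi]
  refine natDegree_sum_le_of_forall_le _ _ ?_
  intro k hk
  have hk' := Finset.mem_range.1 hk
  have h1 : (low (nu n M) (c k)).natDegree ≤ 2 * n * M := by
    rw [low]
    refine natDegree_sum_le_of_forall_le _ _ ?_
    intro t _
    have h2 := nu_lt n M hM t
    refine le_trans (natDegree_C_mul_le _ _) ?_
    have h3 := natDegree_pow_le (p := (X + 1 : ℤ[X])) (n := nu n M t)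
    have h4 : (X + 1 : ℤ[X]).natDegree = 1 := by
      have := natDegree_X_add_C (1 : ℤ)
      simpa using this
    rw [h4] at h3
    omega
  refine le_trans natDegree_mul_le ?_
  rw [natDegree_X_pow]
  have h5 : k * M ≤ 2 * n * M := Nat.mul_le_mul_right _ hk'.le
  have h6 : 4 * n * M = 2 * n * M + 2 * n * M := by ring
  omega

/-- Main inequality. -/
theorem main_ineq {I : Ideal ℤ[X]} {M n K : ℕ} (hn : 1 ≤ n) (hM : 2 * n ^ 3 ≤ M) (hK : 1 ≤ K)
    (hKI : (C (K : ℤ)) ∈ I) (hf : (X ^ M - 1 : ℤ[X]) ∈ I)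
    (hg : ((X + 1) ^ M - 1 : ℤ[X]) ∈ I) :
    I.toAddSubgroup.index ^ (n ^ 2) ≤ ((M ^ n ^ 2) ^ M) ^ (n ^ 2) *
      (((2 * n * M) ^ (8 * n ^ 7)) ^ (M * n ^ 2) * K ^ (4 * n * M)) := by
  have hn3 : n ^ 2 ≤ 2 * n ^ 3 := by
    calc n ^ 2 = n ^ 2 * 1 := by ring
      _ ≤ n ^ 2 * (2 * n) := Nat.mul_le_mul_left _ (by omega)
      _ = 2 * n ^ 3 := by ring
  have hM2 : n ^ 2 ≤ M := le_trans hn3 hM
  have hM1 : 1 ≤ M := le_trans (Nat.one_le_pow _ _ (by omega)) hM2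
  obtain ⟨c, hc1, hc2⟩ := exists_sol n M hn
  have hcard : Fintype.card (Fin (n ^ 2) × Fin (2 * n)) = 2 * n ^ 3 := by
    simp only [Fintype.card_prod, Fintype.card_fin]; ring
  obtain ⟨κ, Φ, hκ1, hκ2, hΦ, hΨ, hdeg⟩ := exists_prim M (2 * n) (nu n M) (nu_inj n M hM2) c
    (by rw [hcard]; exact hM) hc1 (2 * n * M) (by nlinarith) (nu_lt n M hM2)
  have hmem := psi_mem_jet hM1 hf hg c hc2
  rw [hΨ] at hmem
  have hdeg2 : Φ.natDegree ≤ 4 * n * M := by rw [hdeg]; exact natDegree_psi hM2 c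
  have h1 := index_jet_le hM1 hK hκ1 hf hKI Φ hΦ hdeg2 hmem
  have h2 := index_pow_le hM1 hf (n ^ 2) (n ^ 2) le_rfl
  refine le_trans h2 (Nat.mul_le_mul_left _ (le_trans h1.2 (Nat.mul_le_mul_right _ ?_)))
  refine Nat.pow_le_pow_left (le_trans hκ2 ?_) _
  rw [hcard]
  apply le_of_eq
  congr 1
  ring

end Pool.Agent.H31.Quot
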