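import Pool.Agent.H31.QuotG

set_option autoImplicit false

open Polynomial

namespace Pool.Agent.H31.Quot

lemma lin_le (ε C : ℝ) (hε : 0 < ε) : ∃ c : ℝ, ∀ x : ℝ, C * x ≤ ε * x ^ 2 + c := by
  refine ⟨C ^ 2 / (4 * ε), fun x => ?_⟩
  have h : 0 ≤ (2 * ε * x - C) ^ 2 / (4 * ε) := by positivity
  have e : (2 * ε * x - C) ^ 2 / (4 * ε) = ε * x ^ 2 + C ^ 2 / (4 * ε) - C * x := by
    field_simp
    ring
  linarith

lemma log_le (ε C b : ℝ) (hε : 0 < ε) (hC : 0 < C) (hb : 1 ≤ b) :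
    ∃ c : ℝ, ∀ x : ℝ, 1 ≤ x → C * x * Real.log (b * x) ≤ ε * x ^ 2 + c := by
  set t : ℝ := 2 * C * b / ε with ht
  have htpos : 0 < t := by positivity
  obtain ⟨c, hc⟩ := lin_le (ε / 2) (C * Real.log t) (by positivity)
  refine ⟨c, fun x hx => ?_⟩
  have h1 : Real.log (b * x) ≤ b * x / t + Real.log t := by
    have h2 : Real.log (b * x / t) ≤ b * x / t - 1 := Real.log_le_sub_one_of_pos (by positivity)
    rw [Real.log_div (by positivity) (by positivity)] at h2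
    linarith
  have h3 : C * x * Real.log (b * x) ≤ C * x * (b * x / t + Real.log t) :=
    mul_le_mul_of_nonneg_left h1 (by positivity)
  have h4 : C * x * (b * x / t) = ε / 2 * x ^ 2 := by
    rw [ht]; field_simp
  have h5 := hc x
  nlinarith

lemma log_ineq {I : Ideal ℤ[X]} {M n K : ℕ} (hn : 1 ≤ n) (hM : 2 * n ^ 3 ≤ M) (hK : 1 ≤ K)
    (hKI : (C (K : ℤ)) ∈ I) (hf : (X ^ M - 1 : ℤ[X]) ∈ I)
    (hg : ((X + 1) ^ M - 1 : ℤ[X]) ∈ I) (hM1 : 1 ≤ M) :
    Real.log (I.toAddSubgroup.index : ℝ) ≤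
      ((n : ℝ) ^ 2 + 8 * (n : ℝ) ^ 7) * M * Real.log (2 * n * M) +
        4 * M / n * Real.log K := by
  have hidx : I.toAddSubgroup.index ≠ 0 :=
    (index_le M (X ^ M - 1 : ℤ[X])
    (monic_X_pow_sub_C (1 : ℤ) (by omega)).isPrimitive
    (by
      have := natDegree_X_pow_sub_C (n := M) (r := (1 : ℤ))
      simpa using this.le) K hK I hKI hf).1
  have h1 := main_ineq hn hM hK hKI hf hg
  have hnR : (1 : ℝ) ≤ n := by exact_mod_cast hn
  have hMR : (1 : ℝ) ≤ M := by exact_mod_cast hM1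
  have hKR : (1 : ℝ) ≤ K := by exact_mod_cast hK
  have hidxR : (0 : ℝ) < (I.toAddSubgroup.index : ℝ) := by
    exact_mod_cast Nat.pos_of_ne_zero hidx
  have h2 : ((I.toAddSubgroup.index : ℝ)) ^ (n ^ 2) ≤ (((M : ℝ) ^ n ^ 2) ^ M) ^ (n ^ 2) *
      (((2 * n * M : ℝ) ^ (8 * n ^ 7)) ^ (M * n ^ 2) * (K : ℝ) ^ (4 * n * M)) := by
    exact_mod_cast h1
  have h3 := Real.log_le_log (by positivity) h2
  rw [Real.log_pow, Real.log_mul (by positivity) (by positivity),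
    Real.log_mul (by positivity) (by positivity), Real.log_pow, Real.log_pow, Real.log_pow,
    Real.log_pow, Real.log_pow, Real.log_pow] at h3
  push_cast at h3
  have hlogM : Real.log M ≤ Real.log (2 * n * M) := by
    apply Real.log_le_log (by positivity)
    nlinarith
  have hn2 : (0 : ℝ) < (n : ℝ) ^ 2 := by positivity
  have h4 : (n : ℝ) ^ 2 * Real.log (I.toAddSubgroup.index : ℝ) ≤
      (n : ℝ) ^ 2 * (((n : ℝ) ^ 2 + 8 * (n : ℝ) ^ 7) * M * Real.log (2 * n * M) +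
        4 * M / n * Real.log K) := by
    refine le_trans h3 ?_
    have e1 : (n : ℝ) ^ 2 * (4 * M / n * Real.log K) = 4 * n * M * Real.log K := by
      field_simp
    rw [mul_add, e1]
    have e2 : (n : ℝ) ^ 2 * ((M : ℝ) * ((n : ℝ) ^ 2 * Real.log M)) ≤
        (n : ℝ) ^ 2 * ((M : ℝ) * ((n : ℝ) ^ 2 * Real.log (2 * n * M))) := by
      gcongr
    nlinarith
  exact le_of_mul_le_mul_left h4 hn2

end Pool.Agent.H31.Quot
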